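import Mathlib
import Pool.Agent.U178.GG.Alg
import Pool.Agent.V1153.UG.Six
import Pool.Agent.V1153.UG.Spc

/-!
# The generalized Green-Griffiths-Lang conjecture for maps of bounded complexity

Let `X` be an irreducible quasi-projective variety: the complement of a hypersurface in a projective
variety, with arbitrary singularities. We consider the holomorphic maps from `ℂ` and from the punctured
disc to `X`, and the analytic arcs in `X`, whose homogeneous coordinates are given by iterated linear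
differential equations, with a bound for the number and the size of the systems and for the degrees:
the maps of complexity at most `(s, r, e, δ)`.

For these maps pseudo Brody hyperbolicity, pseudo Picard hyperbolicity, and the corresponding local
property of arcs are equivalent to each other and to the purely algebraic property that `X` is not
covered by images of the multiplicative group; and they follow from each of the four properties of
the conjecture.
-/

set_option autoImplicit false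

namespace Pool.Agent.Results.MP_64ff02_ag.BoundedComplexity

open MvPolynomial Pool.Agent.V1153.UG
open Pool.Agent.U178.GG (AlgebraicRatio algPair_iff)

variable {n : ℕ}

/-- `f` is the vector of entire homogeneous coordinates, without common zeros, of a nonconstant entire
curve in `X`, the complement of `Q = 0` in the projective variety with the ideal `I`. -/
structure EntireCurve (I : Ideal (MvPolynomial (Fin (n + 1)) ℂ)) (Q : MvPolynomial (Fin (n + 1)) ℂ)
    (f : ℂ → Fin (n + 1) → ℂ) : Prop where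
  diff : ∀ j, Differentiable ℂ fun z => f z j
  ne : ∀ z, f z ≠ 0
  mem : ∀ z, ∀ F ∈ I, (∃ m, F.IsHomogeneous m) → eval (f z) F = 0
  off : ∀ z, eval (f z) Q ≠ 0
  nc : ∃ z w j k, f z j * f w k ≠ f z k * f w j

/-- the punctured disc -/
def puncturedDisc : Set ℂ := {z | z ≠ 0 ∧ ‖z‖ < 1}

/-- `f` is the vector of holomorphic homogeneous coordinates, without common zeros, of a map from the
punctured disc to `X`. -/
structure DiscMap (I : Ideal (MvPolynomial (Fin (n + 1)) ℂ)) (Q : MvPolynomial (Fin (n + 1)) ℂ)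
    (f : ℂ → Fin (n + 1) → ℂ) : Prop where
  diff : ∀ j, DifferentiableOn ℂ (fun z => f z j) puncturedDisc
  ne : ∀ z ∈ puncturedDisc, f z ≠ 0
  mem : ∀ z ∈ puncturedDisc, ∀ F ∈ I, (∃ m, F.IsHomogeneous m) → eval (f z) F = 0
  off : ∀ z ∈ puncturedDisc, eval (f z) Q ≠ 0

/-- The holomorphic map from the punctured disc to the projective space with the homogeneous
coordinates `f` extends to a holomorphic map from the disc to the projective space. -/
def ExtendsOver (f : ℂ → Fin (n + 1) → ℂ) : Prop :=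
  ∃ g : ℂ → Fin (n + 1) → ℂ, DifferentiableOn ℂ g (Metric.ball 0 1) ∧
    (∀ w ∈ Metric.ball (0 : ℂ) 1, g w ≠ 0) ∧
    ∀ w ∈ Metric.ball (0 : ℂ) 1 \ {0}, ∃ c : ℂ, f w = c • g w

/-- `t ↦ P(t)`, given by polynomials of degree at most `N`, is a nonconstant morphism from the
multiplicative group to `X` (the polynomials may have common zeros, and the polynomial `Q(P)` has no
zeros apart from `0`). -/
structure GmCurve (I : Ideal (MvPolynomial (Fin (n + 1)) ℂ)) (Q : MvPolynomial (Fin (n + 1)) ℂ)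
    (N : ℕ) (P : Fin (n + 1) → Polynomial ℂ) : Prop where
  deg : ∀ j, (P j).natDegree ≤ N
  mem : ∀ F ∈ I, (∃ m, F.IsHomogeneous m) → aeval P F = 0
  off : ∃ (c : ℂ) (k : ℕ), c ≠ 0 ∧ aeval P Q = Polynomial.C c * Polynomial.X ^ k
  nc : ∃ s t j k, (P j).eval s * (P k).eval t ≠ (P k).eval s * (P j).eval t

/-- `X` is covered by images of the multiplicative group: there is a dominant map to `X` from the
product of the multiplicative group and some variety (with a function field contained in `L`), which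
is not constant along the multiplicative group; it is given by the polynomials `P` over `L`. -/
def GmCovered (I : Ideal (MvPolynomial (Fin (n + 1)) ℂ)) (Q : MvPolynomial (Fin (n + 1)) ℂ) : Prop :=
  ∃ (L : Type) (_ : Field L) (_ : Algebra ℂ L) (P : Fin (n + 1) → Polynomial L),
    (∀ F ∈ I, (∃ m, F.IsHomogeneous m) → aeval P F = 0) ∧
    (∃ (c : L) (k : ℕ), c ≠ 0 ∧ aeval P Q = Polynomial.C c * Polynomial.X ^ k) ∧
    (∀ G : MvPolynomial (Fin (n + 1)) ℂ, (∃ m, G.IsHomogeneous m) → G ∉ I → aeval P G ≠ 0) ∧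
    ∃ j k, Polynomial.derivative (P j) * P k ≠ P j * Polynomial.derivative (P k)

/-- The function `f` satisfies a nontrivial linear differential equation of order at most `r` whose
coefficients are polynomials of degree at most `δ`. -/
def LinearODE (r δ : ℕ) (f : ℂ → ℂ) : Prop :=
  ∃ a : Fin (r + 1) → Polynomial ℂ, (∃ k, a k ≠ 0) ∧ (∀ k, (a k).natDegree ≤ δ) ∧
    ∀ z, ∑ k, (a k).eval z * iteratedDeriv (k : ℕ) f z = 0

/-- `y_1, ..., y_s` are vector functions on `U` of length `r` such that `y_l' = A_l y_l`, where the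
entries of the matrix `A_l` are polynomials of degree at most `e` in each of the variables `z`,
`1 / q(z)` and the entries of `y_i`, `i < l`; here `q` is a polynomial of degree at most `δ`
without zeros in `U`. The polynomial `pev c v` is the one with the coefficients `c`, of degree at most
`e` in each variable, at `v`; `vec` is the vector of the variables. -/
structure IteratedSystem (s r e δ : ℕ) (U : Set ℂ) (q : Polynomial ℂ)
    (y : Fin s → Fin r → ℂ → ℂ) : Prop where
  deg : q.natDegree ≤ δ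
  ne : ∀ z ∈ U, q.eval z ≠ 0
  ode : ∀ (l : Fin s) (a : Fin r), ∃ c : Fin r → (Vx s r → Fin (e + 1)) → ℂ, ∀ z ∈ U,
    HasDerivAt (y l a) (∑ b, pev (c b)
      (before l (vec z (q.eval z)⁻¹ fun l a => y l a z)) * y l b z) z

/-- The map `f` with the domain `S` to the complement of `Q = 0` is of complexity at most
`(s, r, e, δ)`: on some nonempty open subset of `S` it has homogeneous coordinates `h_j = g f_j` such
that the `h_j` and `1 / Q(h)` are polynomials of degree at most `e` in each of the variables `z`,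
`1 / q(z)` and the entries of `y_1, ..., y_s` as in `IteratedSystem`. -/
def Complexity (S : Set ℂ) (Q : MvPolynomial (Fin (n + 1)) ℂ) (s r e δ : ℕ)
    (f : ℂ → Fin (n + 1) → ℂ) : Prop :=
  ∃ (U : Set ℂ) (q : Polynomial ℂ) (y : Fin s → Fin r → ℂ → ℂ) (g : ℂ → ℂ), IsOpen U ∧
    U.Nonempty ∧ U ⊆ S ∧ IteratedSystem s r e δ U q y ∧ (∀ z ∈ U, g z ≠ 0) ∧
    (∀ j, ∃ c : (Vx s r → Fin (e + 1)) → ℂ, ∀ z ∈ U,
      g z * f z j = pev c (vec z (q.eval z)⁻¹ fun l a => y l a z)) ∧
    ∃ c : (Vx s r → Fin (e + 1)) → ℂ, ∀ z ∈ U,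
      pev c (vec z (q.eval z)⁻¹ fun l a => y l a z) * eval (fun j => g z * f z j) Q = 1

/-- `h` is an analytic arc in `X`, defined on the connected open set `U`, of complexity at most
`(s, r, e, δ)`: the homogeneous coordinates `h_j` and `1 / Q(h)` are polynomials as in
`Complexity`. -/
structure AnalyticArc (I : Ideal (MvPolynomial (Fin (n + 1)) ℂ))
    (Q : MvPolynomial (Fin (n + 1)) ℂ) (s r e δ : ℕ) (U : Set ℂ) (h : ℂ → Fin (n + 1) → ℂ) :
    Prop where
  opn : IsOpen U
  con : IsPreconnected U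
  non : ∃ z ∈ U, h z ≠ 0
  sys : ∃ (q : Polynomial ℂ) (y : Fin s → Fin r → ℂ → ℂ), IteratedSystem s r e δ U q y ∧
    (∀ j, ∃ c : (Vx s r → Fin (e + 1)) → ℂ, ∀ z ∈ U,
      h z j = pev c (vec z (q.eval z)⁻¹ fun l a => y l a z)) ∧
    ∃ c : (Vx s r → Fin (e + 1)) → ℂ, ∀ z ∈ U,
      pev c (vec z (q.eval z)⁻¹ fun l a => y l a z) * eval (h z) Q = 1
  mem : ∀ z ∈ U, ∀ F ∈ I, (∃ m, F.IsHomogeneous m) → eval (h z) F = 0

/-- `X` is pseudo Brody hyperbolic. -/
def PseudoBrodyHyperbolic (I : Ideal (MvPolynomial (Fin (n + 1)) ℂ))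
    (Q : MvPolynomial (Fin (n + 1)) ℂ) : Prop :=
  ∃ G : MvPolynomial (Fin (n + 1)) ℂ, (∃ m, G.IsHomogeneous m) ∧ G ∉ I ∧
    ∀ f, EntireCurve I Q f → ∀ z, eval (f z) G = 0

/-- `X` is pseudo Picard hyperbolic. -/
def PseudoPicardHyperbolic (I : Ideal (MvPolynomial (Fin (n + 1)) ℂ))
    (Q : MvPolynomial (Fin (n + 1)) ℂ) : Prop :=
  ∃ G : MvPolynomial (Fin (n + 1)) ℂ, (∃ m, G.IsHomogeneous m) ∧ G ∉ I ∧
    ∀ f, DiscMap I Q f → (∀ z ∈ puncturedDisc, eval (f z) G = 0) ∨ ExtendsOver f

theorem curve_iff {I : Ideal (MvPolynomial (Fin (n + 1)) ℂ)} {Q : MvPolynomial (Fin (n + 1)) ℂ}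
    {f : ℂ → Fin (n + 1) → ℂ} : Curve I Q f ↔ EntireCurve I Q f :=
  ⟨fun h => ⟨h.diff, h.ne, h.mem, h.off, h.nc⟩, fun h => ⟨h.diff, h.ne, h.mem, h.off, h.nc⟩⟩

theorem dcurve_iff {I : Ideal (MvPolynomial (Fin (n + 1)) ℂ)} {Q : MvPolynomial (Fin (n + 1)) ℂ}
    {f : ℂ → Fin (n + 1) → ℂ} : DCurve I Q f ↔ DiscMap I Q f :=
  ⟨fun h => ⟨h.diff, h.ne, h.mem, h.off⟩, fun h => ⟨h.diff, h.ne, h.mem, h.off⟩⟩

theorem gm_iff {I : Ideal (MvPolynomial (Fin (n + 1)) ℂ)} {Q : MvPolynomial (Fin (n + 1)) ℂ}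
    {N : ℕ} {P : Fin (n + 1) → Polynomial ℂ} : GmBdd I Q N P ↔ GmCurve I Q N P :=
  ⟨fun h => ⟨h.deg, h.mem, h.off, h.nc⟩, fun h => ⟨h.deg, h.mem, h.off, h.nc⟩⟩

theorem sys_iff {s r e δ : ℕ} {U : Set ℂ} {q : Polynomial ℂ} {y : Fin s → Fin r → ℂ → ℂ} :
    IterSys s r e δ U q y ↔ IteratedSystem s r e δ U q y :=
  ⟨fun h => ⟨h.deg, h.ne, h.ode⟩, fun h => ⟨h.deg, h.ne, h.ode⟩⟩

theorem bdd_iff {S : Set ℂ} {Q : MvPolynomial (Fin (n + 1)) ℂ} {s r e δ : ℕ}
    {f : ℂ → Fin (n + 1) → ℂ} : Bdd S Q s r e δ f ↔ Complexity S Q s r e δ f := by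
  unfold Bdd Complexity
  simp only [sys_iff]

theorem arc_iff {I : Ideal (MvPolynomial (Fin (n + 1)) ℂ)} {Q : MvPolynomial (Fin (n + 1)) ℂ}
    {s r e δ : ℕ} {U : Set ℂ} {h : ℂ → Fin (n + 1) → ℂ} :
    Arc I Q s r e δ U h ↔ AnalyticArc I Q s r e δ U h := by
  constructor
  · rintro ⟨h1, h2, h3, ⟨q, y, h4, h5⟩, h6⟩
    exact ⟨h1, h2, h3, ⟨q, y, sys_iff.1 h4, h5⟩, h6⟩
  · rintro ⟨h1, h2, h3, ⟨q, y, h4, h5⟩, h6⟩
    exact ⟨h1, h2, h3, ⟨q, y, sys_iff.2 h4, h5⟩, h6⟩

/-- Let `X` be an irreducible quasi-projective variety, the complement of the hypersurface `Q = 0` in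
the projective variety with the prime ideal `I` (`X` is projective if `Q = 1`).

(1) The following are equivalent.

* `X` is not covered by images of the multiplicative group.
* For each `N` all nonconstant morphisms of degree at most `N` from the multiplicative group to `X`
  have their images in one proper closed subset.
* For all `r`, `δ` all nonconstant entire curves in `X` whose homogeneous coordinates satisfy linear
  differential equations of order at most `r` with polynomial coefficients of degree at most `δ` lie in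
  one proper closed subset.
* `X` is pseudo Brody hyperbolic for curves of bounded complexity: for all `s`, `r`, `e`, `δ` all
  nonconstant entire curves of complexity at most `(s, r, e, δ)` in `X` lie in one proper closed
  subset.
* `X` is pseudo Picard hyperbolic for maps of bounded complexity: for all `s`, `r`, `e`, `δ` all
  holomorphic maps of complexity at most `(s, r, e, δ)` from the punctured disc to `X` whose image is
  not contained in one proper closed subset extend over the puncture.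
* For all `s`, `r`, `e`, `δ` there is a number `m` such that for all analytic arcs of complexity at most
  `(s, r, e, δ)` in `X` which are not contained in one proper closed subset the ratios of the
  homogeneous coordinates are algebraic functions of degree and height at most `m`.

(2) These properties hold if `X` is pseudo Brody hyperbolic, if `X` is pseudo Picard hyperbolic, and if
`X` is of log general type (here `K` is the function field, `y` the generic point and `w` the
dimension of `X`). -/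
theorem result {I : Ideal (MvPolynomial (Fin (n + 1)) ℂ)} (hI : I.IsPrime)
    {Q : MvPolynomial (Fin (n + 1)) ℂ} {q : ℕ} (hQ : Q.IsHomogeneous q) :
    List.TFAE [¬ GmCovered I Q,
      ∀ N : ℕ, ∃ G : MvPolynomial (Fin (n + 1)) ℂ, (∃ m, G.IsHomogeneous m) ∧ G ∉ I ∧
        ∀ P, GmCurve I Q N P → ∀ t, eval (fun j => (P j).eval t) G = 0,
      ∀ r δ : ℕ, ∃ G : MvPolynomial (Fin (n + 1)) ℂ, (∃ m, G.IsHomogeneous m) ∧ G ∉ I ∧
        ∀ f, EntireCurve I Q f → (∀ j, LinearODE r δ fun z => f z j) → ∀ z, eval (f z) G = 0,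
      ∀ s r e δ : ℕ, ∃ G : MvPolynomial (Fin (n + 1)) ℂ, (∃ m, G.IsHomogeneous m) ∧ G ∉ I ∧
        ∀ f, EntireCurve I Q f → Complexity Set.univ Q s r e δ f → ∀ z, eval (f z) G = 0,
      ∀ s r e δ : ℕ, ∃ G : MvPolynomial (Fin (n + 1)) ℂ, (∃ m, G.IsHomogeneous m) ∧ G ∉ I ∧
        ∀ f, DiscMap I Q f → Complexity puncturedDisc Q s r e δ f →
          (∀ z ∈ puncturedDisc, eval (f z) G = 0) ∨ ExtendsOver f,
      ∀ s r e δ : ℕ, ∃ (G : MvPolynomial (Fin (n + 1)) ℂ) (m0 : ℕ),
        (∃ m, G.IsHomogeneous m) ∧ G ∉ I ∧ ∀ U h, AnalyticArc I Q s r e δ U h →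
          (∀ z ∈ U, eval (h z) G = 0) ∨
            ∀ j l, ∃ m ≤ m0, AlgebraicRatio m U (fun z => h z j) fun z => h z l] ∧
    (PseudoBrodyHyperbolic I Q → ¬ GmCovered I Q) ∧
    (PseudoPicardHyperbolic I Q → ¬ GmCovered I Q) ∧
    ∀ (K : Type) [Field K] [Algebra ℂ K] (w : ℕ) (y : Fin (n + 1) → K),
      Pool.Agent.TH143.GT.FunField I Q K w y →
      Pool.Agent.W602.GT.LogGeneralType ℂ K w (Pool.Agent.W603.GR.OffQ Q q y) →
        ¬ GmCovered I Q := by
  have h6 := six hI hQ
  have h12 : (¬ GmCovered I Q) ↔ GmThin I Q := h6.out 0 1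
  have h23 : GmThin I Q ↔ DFinThin I Q := h6.out 1 2
  have h24 : GmThin I Q ↔ EntireThin I Q := h6.out 1 3
  have h25 : GmThin I Q ↔ DiscThin I Q := h6.out 1 4
  have h26 : GmThin I Q ↔ ArcThin I Q := h6.out 1 5
  have e1 : GmThin I Q ↔ ∀ N : ℕ, ∃ G : MvPolynomial (Fin (n + 1)) ℂ,
      (∃ m, G.IsHomogeneous m) ∧ G ∉ I ∧
        ∀ P, GmCurve I Q N P → ∀ t, eval (fun j => (P j).eval t) G = 0 := by
    simp only [← gm_iff]
    exact Iff.rfl
  have e2 : DFinThin I Q ↔ ∀ r δ : ℕ, ∃ G : MvPolynomial (Fin (n + 1)) ℂ,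
      (∃ m, G.IsHomogeneous m) ∧ G ∉ I ∧
        ∀ f, EntireCurve I Q f → (∀ j, LinearODE r δ fun z => f z j) →
          ∀ z, eval (f z) G = 0 := by
    simp only [← curve_iff]
    exact Iff.rfl
  have e3 : EntireThin I Q ↔ ∀ s r e δ : ℕ, ∃ G : MvPolynomial (Fin (n + 1)) ℂ,
      (∃ m, G.IsHomogeneous m) ∧ G ∉ I ∧
        ∀ f, EntireCurve I Q f → Complexity Set.univ Q s r e δ f → ∀ z, eval (f z) G = 0 := by
    simp only [← curve_iff, ← bdd_iff]
    exact Iff.rfl
  have e4 : DiscThin I Q ↔ ∀ s r e δ : ℕ, ∃ G : MvPolynomial (Fin (n + 1)) ℂ,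
      (∃ m, G.IsHomogeneous m) ∧ G ∉ I ∧
        ∀ f, DiscMap I Q f → Complexity puncturedDisc Q s r e δ f →
          (∀ z ∈ puncturedDisc, eval (f z) G = 0) ∨ ExtendsOver f := by
    simp only [← dcurve_iff, ← bdd_iff]
    exact Iff.rfl
  have e5 : ArcThin I Q ↔ ∀ s r e δ : ℕ, ∃ (G : MvPolynomial (Fin (n + 1)) ℂ) (m0 : ℕ),
      (∃ m, G.IsHomogeneous m) ∧ G ∉ I ∧ ∀ U h, AnalyticArc I Q s r e δ U h →
        (∀ z ∈ U, eval (h z) G = 0) ∨
          ∀ j l, ∃ m ≤ m0, AlgebraicRatio m U (fun z => h z j) fun z => h z l := by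
    simp only [← arc_iff, ← algPair_iff]
    exact Iff.rfl
  rw [← e1, ← e2, ← e3, ← e4, ← e5]
  refine ⟨?_, fun hb => ?_, fun hb => ?_, fun K _ _ w y hy hL => not_ruled_of_lgt hQ hy hL⟩
  · tfae_have 1 ↔ 2 := h12
    tfae_have 2 ↔ 3 := h23
    tfae_have 2 ↔ 4 := h24
    tfae_have 2 ↔ 5 := h25
    tfae_have 2 ↔ 6 := h26
    tfae_finish
  · rw [h12, h24, e3]
    obtain ⟨G, h1, h2, h3⟩ := hb
    exact fun s r e δ => ⟨G, h1, h2, fun f hf _ => h3 f hf⟩
  · rw [h12, h25, e4]
    obtain ⟨G, h1, h2, h3⟩ := hb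
    exact fun s r e δ => ⟨G, h1, h2, fun f hf _ => h3 f hf⟩

end Pool.Agent.Results.MP_64ff02_ag.BoundedComplexity
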