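import Pool.Agent.U647.GB.Fre

/-!
# The generalized Green-Griffiths-Lang conjecture for affine surfaces over complex tori

Let `V` be an irreducible affine surface: `y` is its generic point in homogeneous coordinates, with
function field `K`, `VarPts ℂ y` is (the cone over) its closure in projective space, and `V` is the
part outside of the hyperplane `AtInf n` at infinity. We assume (`MapsToTorus y`) that the closure of
`V` has a nonconstant holomorphic map `α` to a complex torus of any dimension (for instance the
Albanese map, if the closure is an irregular surface). The fibres of `α` are assumed to lie in the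
members of a nonconstant pencil, which is always the case for algebraic `α`. There is no hypothesis on
the boundary. For all these surfaces:

* (i) `V` is of log general type if and only if (iv) `V` is strongly of log general type;
* (ii) pseudo Picard hyperbolicity implies (iii) pseudo Brody hyperbolicity;
* (i), and also (iii), implies that only finitely many closed curves in `V` are not of log general
  type, which is equivalent to: `V` is not covered by images of the multiplicative group.

Assume in addition (`OverTorus y`) that the points at infinity lie in a Brody hyperbolic projective
set (for instance curves of genus at least two) or in finitely many fibres of `α`: the components of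
the boundary which are contracted by `α` may still be arbitrary curves. Then moreover:

* (i) implies (iii), and then the exceptional sets in (iii) and (iv) are equal: the same forms vanish
  on all nonconstant entire curves in `V` and on all closed subvarieties of `V` of positive dimension
  which are not of log general type;
* (iii) holds if and only if only finitely many closed curves in `V` are not of log general type and
  each nonconstant entire curve in `V` has one of them as its closure, if and only if `V` is not covered
  by images of the multiplicative group.
-/

set_option autoImplicit false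

open MvPolynomial

namespace Pool.Agent.Results.MP_64ff02_ag.IrregularAffineSurfaces

open Pool.Agent.W602.GT (IsForm coords)
open Pool.Agent.N254.SQ (Eqs LogGeneral OnSpecialQ OnCurvesQ OnDiscsQ)
open Pool.Agent.V1153.UG (GmRuled)
open Pool.Agent.U647.GB (MapsToTorus OverTorus ProperForm AtInf SpecialCurves FinitelySpecial Iy
  free_all ggl_four)

theorem result {n : ℕ} {K : Type} [Field K] [Algebra ℂ K] (y : Fin (n + 1) → K) (hy0 : y 0 ≠ 0)
    (hgen : coords ℂ y = ⊤) (hw : Algebra.trdeg ℂ K = (2 : ℕ)) :
    (MapsToTorus y →
      (LogGeneral (AtInf n) K 2 y ↔ ProperForm y (OnSpecialQ (Eqs y) (AtInf n))) ∧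
      (LogGeneral (AtInf n) K 2 y → (SpecialCurves y).Finite) ∧
      ((SpecialCurves y).Finite ↔ ¬ GmRuled (Iy y) (X 0)) ∧
      (ProperForm y (OnDiscsQ (Eqs y) (AtInf n)) → ProperForm y (OnCurvesQ (Eqs y) (AtInf n))) ∧
      (ProperForm y (OnCurvesQ (Eqs y) (AtInf n)) → (SpecialCurves y).Finite)) ∧
    (OverTorus y →
      (LogGeneral (AtInf n) K 2 y → ProperForm y (OnCurvesQ (Eqs y) (AtInf n)) ∧
        ∀ G : MvPolynomial (Fin (n + 1)) ℂ, IsForm G →
          (OnSpecialQ (Eqs y) (AtInf n) G ↔ OnCurvesQ (Eqs y) (AtInf n) G)) ∧
      [ProperForm y (OnCurvesQ (Eqs y) (AtInf n)), FinitelySpecial y,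
        ¬ GmRuled (Iy y) (X 0)].TFAE) :=
  ⟨free_all hy0 hgen hw, fun hT => ⟨(ggl_four hy0 hgen hw hT).2.1, (ggl_four hy0 hgen hw hT).2.2.2⟩⟩

end Pool.Agent.Results.MP_64ff02_ag.IrregularAffineSurfaces
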