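import Pool.Agent.U173.MP.Her

/-!
# The special sets of surfaces in varieties which carry a map with many preperiodic points

`X` is a complex projective variety of any dimension, given by its function field `K` and the homogeneous
coordinates `x` of its generic point; `coords ℂ x = ⊤` says that `K` is generated by the ratios of the
coordinates. (So for a given `K` the theorem speaks about all projective varieties birational to `X`, smooth
or not.)

`ManyPrep ℂ d B p q` (`Pool/Agent/Q103/EC/Mxv.lean`): `f = p / q` is a rational map of the projective
line over `K` of degree `d` (a family of rational maps over an open subset of `X`) with at least `B`
preperiodic points in `P^1(K)` (preperiodic rational sections), and the moduli map from `X` to the space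
`M_d` of the conjugacy classes of the maps of degree `d` is generically finite: if `f` is conjugate over an
algebraic closure of `K` to a map with coefficients algebraic over a field `F` between `ℂ` and `K`, then `K`
is algebraic over `F`.

`S` is a closed surface in `X`, given by its function field `E` and its generic point `z`: `SubOf ℂ x z` says
that `E` is generated by the ratios of the coordinates `z i` and that the forms which vanish on `X` vanish
at `z`. If `X` is a surface then `S = X` is possible.

`SpecialSets z` (`Pool/Agent/Q103/SF/Defs2.lean`): let `Ξ` be the union of the closed curves of geometric
genus at most one in `S` (`lowCurves z`; a closed set is given by the set of the forms which vanish on it).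
Then

* these curves are finite in number, so `Ξ` is a proper closed subset;
* (property (iii)) the Zariski closure of each nonconstant entire curve in `S` is one of these curves, and
  each of them is the Zariski closure of an entire curve; so `Ξ` is the smallest closed set for the
  pseudo Brody hyperbolicity of `S`;
* (property (ii)) the Zariski closure of the image of each holomorphic map from the punctured disc with an
  essential singularity is one of these curves; so `Ξ` is the smallest closed set for the pseudo
  Picard hyperbolicity (`t ↦ f (1 / t)` for an entire curve `f`);
* (property (iv)) every closed subvariety of positive dimension of `S` is of general type or one of these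
  curves; so `S` is strongly of general type, again with the smallest possible set `Ξ`;
* the Zariski closure of each nonconstant meromorphic image of a space `ℂ ^ g` is one of these curves,
  and each of them is the image of an elliptic curve;
* there is a constant `A` such that for each nonconstant map from a curve of genus `g` to `S` the degree is
  at most `A (2 g - 2)`, or the image is one of these curves.

The theorem: for each `d ≥ 2` there is a `B` such that all complex projective varieties `X` which carry such a
map of degree `d` with at least `B` preperiodic points have a proper closed subset `Z = {R = 0}` such that all
the closed surfaces `S` in `X` which are not contained in `Z` are of general type and have these properties,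
and the curves of genus at most one in `S` lie in `Z`. So the four properties hold for each of these
surfaces, and all four exceptional sets are equal to the union of the finitely many rational and
elliptic curves. The surfaces in `X` through a general point are such surfaces.

The last part gives examples, of dimension `2 d - 2`, for all numbers `n ≥ 3` of preperiodic points: the
components of the spaces of the maps of degree `d` with a marked point of exact period `n`.

The case where `X` is itself a surface is in the starting library (projects EC, KO and SF of helper103, with
helper24, helper95, helper111, helper239, helper285, and GT of helper41 and others): symmetric differential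
forms are constructed from the preperiodic points of `f`. They imply the hyperbolicity modulo a proper
closed subset, which is a finite union of curves; for curves and their normalisations everything is
decided by the genus. For the surfaces in a variety of higher dimension the map `f` with its preperiodic
points is specialised to the surface (`Pool/Agent/U173/MP/Her.lean`).
-/

set_option autoImplicit false

namespace Pool.Agent.Results.MP_64ff02_ag.ManyPreperiodicSurfaces

open Polynomial
open Pool.Agent.W602.GT
open Pool.Agent.TH466.QG (SubOf)
open Pool.Agent.Q103.EC (ManyPrep)
open Pool.Agent.Q103.SF (SpecialSets lowCurves)

/-- **The special sets of surfaces in varieties which carry a map with many preperiodic points**: see the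
explanation at the beginning of the file. -/
theorem result (d : ℕ) (hd : 2 ≤ d) :
    (∃ B : ℕ, ∀ (K : Type) [Field K] [Algebra ℂ K] (p q : K[X]), ManyPrep ℂ d B p q →
      ∀ (M : ℕ) (x : Fin (M + 1) → K), x ≠ 0 → coords ℂ x = ⊤ →
      ∃ R : MvPolynomial (Fin (M + 1)) ℂ, IsForm R ∧ val x R ≠ 0 ∧
        ∀ (E : Type) [Field E] [Algebra ℂ E] (z : Fin (M + 1) → E), SubOf ℂ x z → val z R ≠ 0 →
          Algebra.trdeg ℂ E = (2 : ℕ) →
            GeneralType ℂ E 2 ∧ SpecialSets z ∧ ∀ V ∈ lowCurves z, R ∈ V) ∧
    ∀ n : ℕ, 3 ≤ n → ∃ (K : Type) (_ : Field K) (_ : Algebra ℂ K) (p q : K[X]),
      ManyPrep ℂ d n p q ∧ Algebra.trdeg ℂ K = (2 * d - 2 : ℕ) := by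
  refine ⟨?_, Pool.Agent.Q103.EC.exists_many d hd⟩
  obtain ⟨B, hB⟩ := Pool.Agent.U173.MP.surf_sub d hd
  refine ⟨B, fun K _ _ p q h M x hx hgen => ?_⟩
  obtain ⟨R, h1, h2, h3⟩ := hB K p q h M x hx hgen
  refine ⟨R, h1, h2, fun E _ _ z hz hzR htr => ?_⟩
  obtain ⟨g1, g2, g3, -⟩ := h3 E z hz hzR htr
  exact ⟨g1, g2, g3⟩

end Pool.Agent.Results.MP_64ff02_ag.ManyPreperiodicSurfaces
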